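import Pool.Agent.Y485.HS.Stm
import Pool.Agent.Helper206.BoxS.Brouwer

/-!
Job HSS-DL: the degree formula for Lipschitz maps which are the identity outside of a ball
(polynomial interpolation, after Milnor).
-/

set_option autoImplicit false

open MeasureTheory Set Metric Filter Topology
open scoped ENNReal NNReal

namespace Pool.Agent.Y438.HS

open Pool.Agent.Y485.HS
open Pool.Agent.Helper206.BoxS.Brouwer (id_add_lipschitz det_poly det_pos_of_norm_lt)

/-- Lipschitz maps of Euclidean space send null sets to null sets. -/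
theorem null_image {n : ℕ} {f : E n → E n} {K : ℝ≥0} (hf : LipschitzWith K f) {s : Set (E n)}
    (hs : volume s = 0) : volume (f '' s) = 0 := by
  have hH : (Measure.hausdorffMeasure (Module.finrank ℝ (E n) : ℝ) :
      Measure (E n)).IsAddHaarMeasure := isAddHaarMeasure_hausdorffMeasure
  have h1 : (Measure.hausdorffMeasure (Module.finrank ℝ (E n) : ℝ) : Measure (E n)) s = 0 :=
    Measure.absolutelyContinuous_isAddHaarMeasure _ volume hs
  have h2 : (Measure.hausdorffMeasure (Module.finrank ℝ (E n) : ℝ) : Measure (E n)) (f '' s) = 0 := by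
    have := hf.hausdorffMeasure_image_le (d := (Module.finrank ℝ (E n) : ℝ)) (Nat.cast_nonneg _) s
    rw [h1, mul_zero] at this
    exact le_antisymm this zero_le
  exact Measure.absolutelyContinuous_isAddHaarMeasure volume
    (Measure.hausdorffMeasure (Module.finrank ℝ (E n) : ℝ) : Measure (E n)) h2

section main

variable {n : ℕ} {v : E n → E n} {C : ℝ≥0} {R : ℝ}

/-- the determinants are bounded -/
theorem det_bdd (hv : LipschitzWith C v) (t : ℝ) :
    ∃ M : ℝ, 0 ≤ M ∧ ∀ x, |(ContinuousLinearMap.id ℝ (E n) + t • fderiv ℝ v x).det| ≤ M := by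
  have hc : Continuous (fun T : E n →L[ℝ] E n =>
      |(ContinuousLinearMap.id ℝ (E n) + t • T).det|) := by
    have h1 : Continuous (fun T : E n →L[ℝ] E n => ContinuousLinearMap.id ℝ (E n) + t • T) := by
      fun_prop
    exact (ContinuousLinearMap.continuous_det.comp h1).abs
  obtain ⟨M, hM⟩ := ((isCompact_closedBall (0 : E n →L[ℝ] E n) C).image hc).bddAbove
  refine ⟨max M 0, le_max_right _ _, fun x => le_trans (hM ⟨fderiv ℝ v x, ?_, rfl⟩) (le_max_left _ _)⟩
  rw [mem_closedBall, dist_zero_right]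
  exact norm_fderiv_le_of_lipschitz ℝ hv

theorem meas_det (v : E n → E n) (t : ℝ) :
    Measurable (fun x => (ContinuousLinearMap.id ℝ (E n) + t • fderiv ℝ v x).det) := by
  have h1 : Continuous (fun T : E n →L[ℝ] E n => (ContinuousLinearMap.id ℝ (E n) + t • T).det) := by
    have h1 : Continuous (fun T : E n →L[ℝ] E n => ContinuousLinearMap.id ℝ (E n) + t • T) := by
      fun_prop
    exact ContinuousLinearMap.continuous_det.comp h1
  exact h1.measurable.comp (measurable_fderiv ℝ v)

theorem int_det (hv : LipschitzWith C v) (t : ℝ) {g : E n → ℝ} (hg : Continuous g) :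
    IntegrableOn (fun x => g (x + t • v x) *
      (ContinuousLinearMap.id ℝ (E n) + t • fderiv ℝ v x).det) (closedBall 0 R) := by
  have hc : Continuous (fun x => g (x + t • v x)) := by
    have := hv.continuous
    fun_prop
  obtain ⟨M1, hM1⟩ := ((isCompact_closedBall (0 : E n) R).image hc.abs).bddAbove
  obtain ⟨M2, hM2, hM2'⟩ := det_bdd hv t
  refine Measure.integrableOn_of_bounded (M := max M1 0 * M2)
    (isCompact_closedBall (0 : E n) R).measure_lt_top.ne
    (hc.measurable.mul (meas_det v t)).aestronglyMeasurable ?_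
  refine (ae_restrict_iff' measurableSet_closedBall).2 (Eventually.of_forall fun x hx => ?_)
  rw [Real.norm_eq_abs, abs_mul]
  exact mul_le_mul ((hM1 ⟨x, hx, rfl⟩).trans (le_max_left _ _)) (hM2' x) (abs_nonneg _)
    (le_max_right _ _)

/-- change of variables for small parameters -/
theorem small (hv : LipschitzWith C v) (h0 : ∀ x, R ≤ ‖x‖ → v x = 0) {t : ℝ} (ht0 : 0 ≤ t)
    (htC : t * C < 1) (g : E n → ℝ) :
    ∫ x in closedBall 0 R, g (x + t • v x) *
      (ContinuousLinearMap.id ℝ (E n) + t • fderiv ℝ v x).det = ∫ x in closedBall 0 R, g x := by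
  obtain ⟨t', ht'⟩ : ∃ t' : ℝ≥0, (t' : ℝ) = t := ⟨⟨t, ht0⟩, rfl⟩
  have hK : t' * C < 1 := by
    have : ((t' * C : ℝ≥0) : ℝ) < 1 := by
      rw [NNReal.coe_mul, ht']
      exact htC
    exact_mod_cast this
  have hsm : LipschitzWith (t' * C) (fun x => t • v x) := by
    have h1 : LipschitzWith t' (fun y : E n => t • y) := by
      apply LipschitzWith.of_dist_le_mul
      intro a b
      rw [dist_smul₀, ht', Real.norm_eq_abs, abs_of_nonneg ht0]
    exact h1.comp hv
  obtain ⟨hinj, himg⟩ := id_add_lipschitz (fun x => t • v x) (t' * C) hK hsm R (by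
    intro x hx
    show t • v x = 0
    rw [h0 x hx.le, smul_zero])
  set f : E n → E n := fun x => x + t • v x with hf
  have hfl : LipschitzWith (1 + t' * C) f := by
    have h1 : LipschitzWith 1 (fun x : E n => x) := LipschitzWith.id
    exact h1.add hsm
  set S : Set (E n) := closedBall 0 R ∩ {x | DifferentiableAt ℝ v x} with hS
  have hSm : MeasurableSet S := measurableSet_closedBall.inter (measurableSet_of_differentiableAt ℝ v)
  have hnull : volume (closedBall (0 : E n) R \ S) = 0 := by
    have h1 := hv.ae_differentiableAt (μ := (volume : Measure (E n)))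
    refine measure_mono_null ?_ h1
    rintro x ⟨hx, hx2⟩ hx3
    exact hx2 ⟨hx, hx3⟩
  have hSB : (S : Set (E n)) =ᵐ[volume] closedBall 0 R :=
    ae_eq_set.2 ⟨by rw [sdiff_eq_empty.2 inter_subset_left, measure_empty], hnull⟩
  have hfS : (f '' S : Set (E n)) =ᵐ[volume] closedBall 0 R := by
    refine ae_eq_set.2 ⟨?_, ?_⟩
    · have : f '' S ⊆ closedBall 0 R := by
        rw [← himg]
        exact image_mono inter_subset_left
      rw [sdiff_eq_empty.2 this, measure_empty]
    · refine measure_mono_null ?_ (null_image hfl hnull)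
      rintro y ⟨hy, hy2⟩
      rw [← himg] at hy
      obtain ⟨x, hx, rfl⟩ := hy
      exact ⟨x, ⟨hx, fun hxS => hy2 ⟨x, hxS, rfl⟩⟩, rfl⟩
  have hder : ∀ x ∈ S, HasFDerivWithinAt f
      (ContinuousLinearMap.id ℝ (E n) + t • fderiv ℝ v x) S x := by
    intro x hx
    exact ((hasFDerivAt_id x).add (hx.2.hasFDerivAt.const_smul t)).hasFDerivWithinAt
  have hcv := integral_image_eq_integral_abs_det_fderiv_smul volume hSm hder hinj.injOn g
  rw [setIntegral_congr_set hfS] at hcv
  rw [hcv, setIntegral_congr_set hSB.symm]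
  refine setIntegral_congr_fun hSm fun x _ => ?_
  have hpos : 0 < (ContinuousLinearMap.id ℝ (E n) + t • fderiv ℝ v x).det := by
    apply det_pos_of_norm_lt
    rw [norm_smul, Real.norm_eq_abs, abs_of_nonneg ht0]
    calc t * ‖fderiv ℝ v x‖ ≤ t * C := by
          gcongr
          exact norm_fderiv_le_of_lipschitz ℝ hv
      _ < 1 := htC
  show g (f x) * _ = |_| • g (f x)
  rw [abs_of_pos hpos, smul_eq_mul, mul_comm]

/-- functions which are polynomials of bounded degree along all lines -/
def Pol (g : E n → ℝ) : Prop := Continuous g ∧ ∃ d : ℕ, ∀ x u : E n, ∃ q : Polynomial ℝ,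
  q.natDegree ≤ d ∧ ∀ t : ℝ, q.eval t = g (x + t • u)

theorem Pol.const (c : ℝ) : Pol (fun _ : E n => c) :=
  ⟨continuous_const, 0, fun x u => ⟨Polynomial.C c, by simp, fun t => by simp⟩⟩

theorem Pol.add {g h : E n → ℝ} (hg : Pol g) (hh : Pol h) : Pol (fun x => g x + h x) := by
  obtain ⟨c1, d1, h1⟩ := hg
  obtain ⟨c2, d2, h2⟩ := hh
  refine ⟨c1.add c2, max d1 d2, fun x u => ?_⟩
  obtain ⟨q1, e1, f1⟩ := h1 x u
  obtain ⟨q2, e2, f2⟩ := h2 x u
  refine ⟨q1 + q2, (Polynomial.natDegree_add_le _ _).trans (max_le_max e1 e2), fun t => ?_⟩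
  rw [Polynomial.eval_add, f1, f2]

theorem Pol.mul {g h : E n → ℝ} (hg : Pol g) (hh : Pol h) : Pol (fun x => g x * h x) := by
  obtain ⟨c1, d1, h1⟩ := hg
  obtain ⟨c2, d2, h2⟩ := hh
  refine ⟨c1.mul c2, d1 + d2, fun x u => ?_⟩
  obtain ⟨q1, e1, f1⟩ := h1 x u
  obtain ⟨q2, e2, f2⟩ := h2 x u
  refine ⟨q1 * q2, (Polynomial.natDegree_mul_le).trans (add_le_add e1 e2), fun t => ?_⟩
  rw [Polynomial.eval_mul, f1, f2]

theorem Pol.coord (i : Fin n) : Pol (fun x : E n => x i) := by
  refine ⟨by fun_prop, 1, fun x u => ⟨Polynomial.C (u i) * Polynomial.X + Polynomial.C (x i), ?_, fun t => ?_⟩⟩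
  · exact Polynomial.natDegree_linear_le
  · rw [Polynomial.eval_add, Polynomial.eval_mul, Polynomial.eval_C, Polynomial.eval_X,
      Polynomial.eval_C]
    show u i * t + x i = x i + t * u i
    ring

/-- the formula for functions which are polynomials along lines -/
theorem pol_formula (hv : LipschitzWith C v) (h0 : ∀ x, R ≤ ‖x‖ → v x = 0) {g : E n → ℝ}
    (hg : Pol g) :
    ∫ x in closedBall 0 R, g (x + v x) *
      (ContinuousLinearMap.id ℝ (E n) + fderiv ℝ v x).det = ∫ x in closedBall 0 R, g x := by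
  obtain ⟨hgc, d, hd⟩ := hg
  set N : ℕ := d + Module.finrank ℝ (E n) with hN
  set ε : ℝ := 1 / (C + 1) with hεdef
  have hCnn : (0:ℝ) ≤ C := C.2
  have hε : 0 < ε := by positivity
  have hεC : ∀ t : ℝ, 0 ≤ t → t < ε → t * C < 1 := by
    intro t ht0 ht
    have h1 : t * (C + 1) < 1 := (lt_div_iff₀ (by positivity : (0:ℝ) < C + 1)).1 ht
    nlinarith
  let w : Fin (N+1) → ℝ := fun j => ε * (j : ℝ) / (N + 2)
  have hw0 : ∀ j, 0 ≤ w j := fun j => by positivity
  have hwε : ∀ j, w j < ε := by
    intro j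
    have h1 : (j : ℝ) < N + 2 := by
      have h2 : (j : ℝ) < (N + 1 : ℕ) := by exact_mod_cast j.2
      push_cast at h2
      linarith
    rw [show w j = ε * (j : ℝ) / (N + 2) from rfl, div_lt_iff₀ (by positivity)]
    exact mul_lt_mul_of_pos_left h1 hε
  have hwinj : Set.InjOn w (Finset.univ : Finset (Fin (N+1))) := by
    intro i _ j _ hij
    have h1 : ε * (i : ℝ) / (N + 2) = ε * (j : ℝ) / (N + 2) := hij
    have h2 : (i : ℝ) = j := by
      have h3 : ε * (i : ℝ) = ε * (j : ℝ) := by
        have h4 : (N : ℝ) + 2 ≠ 0 := by positivity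
        field_simp at h1
        rw [h1]
      exact mul_left_cancel₀ hε.ne' h3
    apply Fin.ext
    exact_mod_cast h2
  let c : Fin (N+1) → ℝ := fun j => (Lagrange.basis Finset.univ w j).eval 1
  have hc1 : ∑ j, c j = 1 := by
    have := Lagrange.sum_basis (s := Finset.univ) hwinj ⟨0, Finset.mem_univ _⟩
    have h2 := congrArg (Polynomial.eval (1:ℝ)) this
    rw [Polynomial.eval_finsetSum] at h2
    simpa [c] using h2
  have hsum : ∀ x, g (x + v x) * (ContinuousLinearMap.id ℝ (E n) + fderiv ℝ v x).det =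
      ∑ j, c j * (g (x + w j • v x) *
        (ContinuousLinearMap.id ℝ (E n) + w j • fderiv ℝ v x).det) := by
    intro x
    obtain ⟨P, hPd, hP⟩ := det_poly (fderiv ℝ v x)
    obtain ⟨q, hqd, hq⟩ := hd x (v x)
    have h1 : g (x + v x) * (ContinuousLinearMap.id ℝ (E n) + fderiv ℝ v x).det =
        (q * P).eval 1 := by
      rw [Polynomial.eval_mul, hP, hq, one_smul, one_smul]
    have hdeg : (q * P).degree < (Finset.univ : Finset (Fin (N+1))).card := by
      rw [Finset.card_univ, Fintype.card_fin]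
      calc (q * P).degree ≤ (q * P).natDegree := Polynomial.degree_le_natDegree
        _ < ((N + 1 : ℕ) : WithBot ℕ) := by
          have : (q * P).natDegree ≤ N := Polynomial.natDegree_mul_le.trans (add_le_add hqd hPd)
          exact_mod_cast Nat.lt_succ_of_le this
    have h2 := Lagrange.eq_interpolate hwinj hdeg
    rw [h1]
    conv_lhs => rw [h2]
    rw [Lagrange.interpolate_apply, Polynomial.eval_finsetSum]
    apply Finset.sum_congr rfl
    intro j _
    rw [Polynomial.eval_mul, Polynomial.eval_C, Polynomial.eval_mul, hP, hq, mul_comm]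
  calc ∫ x in closedBall 0 R, g (x + v x) *
        (ContinuousLinearMap.id ℝ (E n) + fderiv ℝ v x).det
      = ∫ x in closedBall 0 R, ∑ j, c j * (g (x + w j • v x) *
        (ContinuousLinearMap.id ℝ (E n) + w j • fderiv ℝ v x).det) := by
        simp_rw [hsum]
    _ = ∑ j, ∫ x in closedBall 0 R, c j * (g (x + w j • v x) *
        (ContinuousLinearMap.id ℝ (E n) + w j • fderiv ℝ v x).det) := by
        apply integral_finsetSum
        intro j _
        exact (int_det hv (w j) hgc).const_mul (c j)
    _ = ∑ j, c j * ∫ x in closedBall 0 R, g x := by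
        apply Finset.sum_congr rfl
        intro j _
        rw [integral_const_mul, small hv h0 (hw0 j) (hεC _ (hw0 j) (hwε j))]
    _ = _ := by rw [← Finset.sum_mul, hc1, one_mul]

/-- Stone-Weierstrass: continuous functions are uniform limits of such functions on compact sets. -/
theorem approx (B : Set (E n)) (hB : IsCompact B) (φ : E n → ℝ) (hφ : Continuous φ) {ε : ℝ}
    (hε : 0 < ε) : ∃ g : E n → ℝ, Pol g ∧ ∀ x ∈ B, |g x - φ x| ≤ ε := by
  have : CompactSpace B := isCompact_iff_compactSpace.1 hB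
  let A : Subalgebra ℝ C(B, ℝ) :=
    { carrier := {f | ∃ g : E n → ℝ, Pol g ∧ ∀ x : B, f x = g x}
      mul_mem' := by
        rintro a b ⟨g, hg, h1⟩ ⟨h, hh, h2⟩
        exact ⟨_, hg.mul hh, fun x => by rw [ContinuousMap.mul_apply, h1, h2]⟩
      add_mem' := by
        rintro a b ⟨g, hg, h1⟩ ⟨h, hh, h2⟩
        exact ⟨_, hg.add hh, fun x => by rw [ContinuousMap.add_apply, h1, h2]⟩
      algebraMap_mem' := by
        intro r
        exact ⟨_, Pol.const r, fun x => rfl⟩ }
  have hsep : A.SeparatesPoints := by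
    intro x y hxy
    have hne : (x : E n) ≠ y := fun h => hxy (Subtype.ext h)
    obtain ⟨i, hi⟩ : ∃ i, (x : E n) i ≠ (y : E n) i := by
      by_contra hcon
      push Not at hcon
      exact hne (by ext i; exact hcon i)
    refine ⟨fun z : B => (z : E n) i, ⟨⟨fun z : B => (z : E n) i, by fun_prop⟩, ?_, rfl⟩, hi⟩
    exact ⟨_, Pol.coord i, fun x => rfl⟩
  obtain ⟨⟨f, g, hg, hfg⟩, hf⟩ :=
    ContinuousMap.exists_mem_subalgebra_near_continuous_of_separatesPoints A hsep
      (fun x : B => φ x) (hφ.comp continuous_subtype_val) ε hε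
  refine ⟨g, hg, fun x hx => ?_⟩
  have := hf ⟨x, hx⟩
  have h2 := hfg ⟨x, hx⟩
  rw [← Real.norm_eq_abs]
  have h3 : f ⟨x, hx⟩ = g x := h2
  rw [← h3]
  exact this.le

/-- the formula for continuous functions -/
theorem cont_formula (hv : LipschitzWith C v) (h0 : ∀ x, R ≤ ‖x‖ → v x = 0) {φ : E n → ℝ}
    (hφ : Continuous φ) :
    ∫ x in closedBall 0 R, (φ (x + v x) *
      (ContinuousLinearMap.id ℝ (E n) + fderiv ℝ v x).det - φ x) = 0 := by
  have hBc : IsCompact (closedBall (0 : E n) R) := isCompact_closedBall 0 R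
  have hFc : Continuous (fun x => x + v x) := continuous_id.add hv.continuous
  have hint : ∀ g : E n → ℝ, Continuous g → IntegrableOn (fun x => g (x + v x) *
      (ContinuousLinearMap.id ℝ (E n) + fderiv ℝ v x).det) (closedBall 0 R) := by
    intro g hg
    have := int_det (R := R) hv 1 hg
    simpa only [one_smul] using this
  have hint2 : ∀ g : E n → ℝ, Continuous g → IntegrableOn g (closedBall 0 R) :=
    fun g hg => hg.continuousOn.integrableOn_compact hBc
  obtain ⟨M, hM, hM'⟩ := det_bdd hv 1
  simp only [one_smul] at hM'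
  set V := volume.real (closedBall (0 : E n) R) with hV
  have hV0 : 0 ≤ V := measureReal_nonneg
  set I := ∫ x in closedBall 0 R, (φ (x + v x) *
      (ContinuousLinearMap.id ℝ (E n) + fderiv ℝ v x).det - φ x) with hI
  have key : ∀ ε : ℝ, 0 < ε → |I| ≤ ε * (M + 1) * V := by
    intro ε hε
    obtain ⟨g, hg, hgφ⟩ := approx _ (hBc.union (hBc.image hFc)) φ hφ hε
    have h1 := pol_formula hv h0 hg
    have h2 : ∫ x in closedBall 0 R, (g (x + v x) *
      (ContinuousLinearMap.id ℝ (E n) + fderiv ℝ v x).det - g x) = 0 := by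
      rw [integral_sub (hint g hg.1) (hint2 g hg.1), h1, sub_self]
    have h3 : I = ∫ x in closedBall 0 R, ((φ (x + v x) *
      (ContinuousLinearMap.id ℝ (E n) + fderiv ℝ v x).det - φ x) - (g (x + v x) *
      (ContinuousLinearMap.id ℝ (E n) + fderiv ℝ v x).det - g x)) := by
      have h4 := integral_sub ((hint φ hφ).sub (hint2 φ hφ)) ((hint g hg.1).sub (hint2 g hg.1))
      refine Eq.trans ?_ h4.symm
      show I = I - _
      have h5 : ∫ x in closedBall 0 R, ((fun x => g (x + v x) *
        (ContinuousLinearMap.id ℝ (E n) + fderiv ℝ v x).det) - g) x = 0 := h2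
      rw [h5, sub_zero]
    rw [h3, ← Real.norm_eq_abs]
    refine norm_setIntegral_le_of_norm_le_const hBc.measure_lt_top fun x hx => ?_
    have e1 := hgφ x (Or.inl hx)
    have e2 := hgφ (x + v x) (Or.inr ⟨x, hx, rfl⟩)
    rw [Real.norm_eq_abs]
    have e3 : (φ (x + v x) *
      (ContinuousLinearMap.id ℝ (E n) + fderiv ℝ v x).det - φ x) - (g (x + v x) *
      (ContinuousLinearMap.id ℝ (E n) + fderiv ℝ v x).det - g x) =
      (g x - φ x) - (g (x + v x) - φ (x + v x)) *
        (ContinuousLinearMap.id ℝ (E n) + fderiv ℝ v x).det := by ring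
    rw [e3]
    calc |(g x - φ x) - (g (x + v x) - φ (x + v x)) *
        (ContinuousLinearMap.id ℝ (E n) + fderiv ℝ v x).det|
        ≤ |g x - φ x| + |(g (x + v x) - φ (x + v x)) *
          (ContinuousLinearMap.id ℝ (E n) + fderiv ℝ v x).det| := abs_sub _ _
      _ = |g x - φ x| + |g (x + v x) - φ (x + v x)| *
          |(ContinuousLinearMap.id ℝ (E n) + fderiv ℝ v x).det| := by rw [abs_mul]
      _ ≤ ε + ε * M := by
          gcongr
          exact hM' x
      _ = ε * (M + 1) := by ring
  by_contra hne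
  have hpos : 0 < |I| := abs_pos.2 hne
  have h1 := key (|I| / (2 * ((M + 1) * V + 1))) (by positivity)
  have h2 : |I| / (2 * ((M + 1) * V + 1)) * (M + 1) * V ≤ |I| / 2 := by
    rw [div_mul_eq_mul_div, div_mul_eq_mul_div, div_le_div_iff₀ (by positivity) (by norm_num)]
    have h3 : 0 ≤ (M + 1) * V := by positivity
    nlinarith
  linarith

end main

theorem dl : S_DL := by
  intro n F K R hR hF hid φ hφ hφs
  set v : E n → E n := fun x => F x - x with hv
  have hvl : LipschitzWith (K + 1) v := hF.sub LipschitzWith.id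
  have hv0 : ∀ x, R ≤ ‖x‖ → v x = 0 := fun x hx => by
    show F x - x = 0
    rw [hid x hx, sub_self]
  have hFv : ∀ x, x + v x = F x := fun x => by
    show x + (F x - x) = F x
    abel
  have h1 := cont_formula hvl hv0 hφ
  simp only [hFv] at h1
  have hder : ∀ᵐ x : E n, fderiv ℝ F x = ContinuousLinearMap.id ℝ (E n) + fderiv ℝ v x := by
    filter_upwards [hvl.ae_differentiableAt (μ := (volume : Measure (E n)))] with x hx
    have h2 : HasFDerivAt (fun y => y + v y) (ContinuousLinearMap.id ℝ (E n) + fderiv ℝ v x) x :=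
      (hasFDerivAt_id x).add hx.hasFDerivAt
    simp only [hFv] at h2
    exact h2.fderiv
  set h : E n → ℝ := fun x => φ (F x) * (fderiv ℝ F x).det - φ x with hh
  have hae : ∀ᵐ x : E n ∂(volume.restrict (closedBall 0 R)),
      φ (F x) * (ContinuousLinearMap.id ℝ (E n) + fderiv ℝ v x).det - φ x = h x := by
    filter_upwards [ae_restrict_of_ae hder] with x hx
    show _ = φ (F x) * (fderiv ℝ F x).det - φ x
    rw [hx]
  have hI : ∫ x in closedBall 0 R, h x = 0 := by
    rw [← integral_congr_ae hae]
    exact h1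
  have hon : IntegrableOn h (closedBall 0 R) := by
    have h2 := int_det (R := R) hvl 1 hφ
    simp only [one_smul, hFv] at h2
    exact (h2.sub (hφ.continuousOn.integrableOn_compact (isCompact_closedBall 0 R))).congr hae
  have hoff : ∀ x ∉ closedBall (0 : E n) R, h x = 0 := by
    intro x hx
    have hx' : R < ‖x‖ := by simpa [mem_closedBall, dist_zero_right] using hx
    have hev : F =ᶠ[𝓝 x] fun y => y := by
      have : ∀ᶠ y in 𝓝 x, R < ‖y‖ := (continuous_norm.tendsto x).eventually (lt_mem_nhds hx')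
      filter_upwards [this] with y hy
      exact hid y hy.le
    show φ (F x) * (fderiv ℝ F x).det - φ x = 0
    rw [hev.fderiv_eq, fderiv_fun_id, hid x hx'.le]
    have : (ContinuousLinearMap.id ℝ (E n)).det = 1 := LinearMap.det_id
    rw [this, mul_one, sub_self]
  have hint : Integrable h := by
    have h2 : h = indicator (closedBall 0 R) h := by
      funext x
      by_cases hx : x ∈ closedBall (0 : E n) R
      · rw [indicator_of_mem hx]
      · rw [indicator_of_notMem hx, hoff x hx]
    rw [h2]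
    exact hon.integrable_indicator measurableSet_closedBall
  have hI2 : ∫ x, h x = 0 := by
    rw [← setIntegral_eq_integral_of_forall_compl_eq_zero hoff]
    exact hI
  have hφi : Integrable φ := hφ.integrable_of_hasCompactSupport hφs
  calc ∫ x, φ (F x) * (fderiv ℝ F x).det = ∫ x, (h x + φ x) := by
        congr 1
        funext x
        show _ = φ (F x) * (fderiv ℝ F x).det - φ x + φ x
        ring
    _ = (∫ x, h x) + ∫ x, φ x := integral_add hint hφi
    _ = ∫ x, φ x := by rw [hI2, zero_add]

end Pool.Agent.Y438.HS
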